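import Pool.Agent.T6.H59.FD.Sets

/-! # A finite set with a large sum of dilates -/

namespace Pool.Agent.Results.MP_288d1b_co.LargeDilate

open Finset

/-- `‖α‖`: the sum of all values of `α`. -/
noncomputable def nrm (α : ℤ → ℝ) : ℝ := ∑' i, α i

/-- `(α + c·α)(i)`: the sum of `α(j) α(k)` over all pairs of integers `(j,k)` with
`j + c k = i`. -/
noncomputable def conv (c : ℤ) (α : ℤ → ℝ) (i : ℤ) : ℝ :=
  ∑' x : ℤ × ℤ, if x.1 + c * x.2 = i then α x.1 * α x.2 else 0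

/-- `‖α + c·α‖`: the infimum over `0 < p < 1` of the sum over all `i` of `(α + c·α)(i) ^ p`. -/
noncomputable def dnorm (c : ℤ) (α : ℤ → ℝ) : ℝ :=
  ⨅ p : Set.Ioo (0 : ℝ) 1, ∑' i : ℤ, (conv c α i) ^ (p : ℝ)

/-- The set `A + c·A` of all `a + c b`, `a, b ∈ A`. -/
def sums (c : ℤ) (A : Finset ℤ) : Finset ℤ := (A ×ˢ A).image fun x => x.1 + c * x.2

/-- The indicator function of a finite set. -/
def ind (A : Finset ℤ) (i : ℤ) : ℝ := if i ∈ A then 1 else 0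

theorem nrm_ind (A : Finset ℤ) : nrm (ind A) = A.card := by
  unfold nrm
  rw [tsum_eq_sum (s := A)]
  · rw [sum_congr rfl (fun i hi => by rw [ind, if_pos hi])]
    simp
  · intro i hi
    rw [ind, if_neg hi]

theorem conv_ind (c : ℤ) (A : Finset ℤ) (i : ℤ) :
    conv c (ind A) i = (((A ×ˢ A).filter fun x => x.1 + c * x.2 = i).card : ℝ) := by
  unfold conv
  rw [tsum_eq_sum (s := A ×ˢ A)]
  · rw [card_filter]
    push_cast
    refine sum_congr rfl fun x hx => ?_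
    rw [mem_product] at hx
    rw [ind, ind, if_pos hx.1, if_pos hx.2]
    simp
  · intro x hx
    rw [mem_product, not_and_or] at hx
    split_ifs with h
    · rcases hx with hx | hx
      · rw [ind, if_neg hx, zero_mul]
      · rw [show ind A x.2 = 0 by rw [ind, if_neg hx], mul_zero]
    · rfl

theorem conv_ind_zero (c : ℤ) (A : Finset ℤ) (i : ℤ) (hi : i ∉ sums c A) :
    conv c (ind A) i = 0 := by
  rw [conv_ind, Nat.cast_eq_zero, card_eq_zero, filter_eq_empty_iff]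
  intro x hx e
  exact hi (mem_image.2 ⟨x, hx, e⟩)

theorem one_le_conv_ind (c : ℤ) (A : Finset ℤ) (i : ℤ) (hi : i ∈ sums c A) :
    1 ≤ conv c (ind A) i := by
  rw [conv_ind, Nat.one_le_cast, Nat.one_le_iff_ne_zero, ← Nat.pos_iff_ne_zero, card_pos]
  obtain ⟨x, hx, e⟩ := mem_image.1 hi
  exact ⟨x, mem_filter.2 ⟨hx, e⟩⟩

theorem conv_ind_le (c : ℤ) (A : Finset ℤ) (i : ℤ) :
    conv c (ind A) i ≤ ((A ×ˢ A).card : ℝ) + 1 := by
  rw [conv_ind]
  have : ((A ×ˢ A).filter fun x => x.1 + c * x.2 = i).card ≤ (A ×ˢ A).card :=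
    card_filter_le _ _
  have h2 : (((A ×ˢ A).filter fun x => x.1 + c * x.2 = i).card : ℝ) ≤ ((A ×ˢ A).card : ℝ) := by
    exact_mod_cast this
  linarith

theorem tsum_ind (c : ℤ) (A : Finset ℤ) (p : ℝ) (hp : 0 < p) :
    ∑' i : ℤ, (conv c (ind A) i) ^ p = ∑ i ∈ sums c A, (conv c (ind A) i) ^ p := by
  rw [tsum_eq_sum (s := sums c A)]
  intro i hi
  rw [conv_ind_zero c A i hi, Real.zero_rpow hp.ne']

theorem dnorm_ind (c : ℤ) (A : Finset ℤ) : dnorm c (ind A) = ((sums c A).card : ℝ) := by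
  have hlow : ∀ p : Set.Ioo (0 : ℝ) 1,
      ((sums c A).card : ℝ) ≤ ∑' i : ℤ, (conv c (ind A) i) ^ (p : ℝ) := by
    intro p
    rw [tsum_ind c A p p.2.1]
    calc ((sums c A).card : ℝ) = ∑ i ∈ sums c A, (1 : ℝ) := by simp
      _ ≤ _ := sum_le_sum fun i hi => Real.one_le_rpow (one_le_conv_ind c A i hi) p.2.1.le
  have : Nonempty (Set.Ioo (0 : ℝ) 1) := ⟨⟨1 / 2, by norm_num, by norm_num⟩⟩
  refine le_antisymm ?_ (le_ciInf hlow)
  set M : ℝ := ((A ×ˢ A).card : ℝ) + 1 with hM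
  have hM0 : 0 < M := by positivity
  have hup : ∀ p : ℝ, 0 < p → p < 1 → dnorm c (ind A) ≤ ((sums c A).card : ℝ) * M ^ p := by
    intro p hp hp1
    have hb : BddBelow (Set.range fun p : Set.Ioo (0 : ℝ) 1 =>
        ∑' i : ℤ, (conv c (ind A) i) ^ (p : ℝ)) := ⟨((sums c A).card : ℝ), by
      rintro _ ⟨q, rfl⟩
      exact hlow q⟩
    refine (ciInf_le hb ⟨p, hp, hp1⟩).trans ?_
    rw [tsum_ind c A p hp]
    calc ∑ i ∈ sums c A, (conv c (ind A) i) ^ p ≤ ∑ i ∈ sums c A, M ^ p :=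
          sum_le_sum fun i hi => Real.rpow_le_rpow
            (zero_le_one.trans (one_le_conv_ind c A i hi)) (conv_ind_le c A i) hp.le
      _ = _ := by rw [sum_const, nsmul_eq_mul]
  have hlim : Filter.Tendsto (fun p : ℝ => ((sums c A).card : ℝ) * M ^ p)
      (nhdsWithin 0 (Set.Ioi 0)) (nhds (((sums c A).card : ℝ) * M ^ (0 : ℝ))) := by
    refine Filter.Tendsto.mono_left ?_ nhdsWithin_le_nhds
    exact ((Real.continuousAt_const_rpow hM0.ne').tendsto).const_mul _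
  rw [Real.rpow_zero, mul_one] at hlim
  refine ge_of_tendsto hlim ?_
  have h1 : ∀ᶠ p : ℝ in nhdsWithin 0 (Set.Ioi 0), p < 1 :=
    nhdsWithin_le_nhds (eventually_lt_nhds one_pos)
  filter_upwards [h1, self_mem_nhdsWithin] with p hp1 hp0
  exact hup p hp0 hp1

theorem sums_map (c : ℕ) (A : Finset ℕ) :
    (sums (c : ℤ) (A.map Nat.castEmbedding)).card = (Pool.Agent.T6.H59.FD.ss c A A).card := by
  have : sums (c : ℤ) (A.map Nat.castEmbedding) =
      (Pool.Agent.T6.H59.FD.ss c A A).map (Nat.castEmbedding (R := ℤ)) := by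
    ext z
    simp only [sums, mem_image, mem_product, mem_map, Nat.castEmbedding_apply, Prod.exists,
      Pool.Agent.T6.H59.FD.mem_ss]
    constructor
    · rintro ⟨_, _, ⟨⟨a, ha, rfl⟩, b, hb, rfl⟩, rfl⟩
      exact ⟨a + c * b, ⟨a, ha, b, hb, rfl⟩, by push_cast; ring⟩
    · rintro ⟨_, ⟨a, ha, b, hb, rfl⟩, rfl⟩
      exact ⟨a, b, ⟨⟨a, ha, rfl⟩, b, hb, rfl⟩, by push_cast; ring⟩
  rw [this, card_map]

/-- For every real `C` there is a finite set `A` of integers whose indicator function `α`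
satisfies `C ‖α+α‖^2 < ‖α‖ ‖α+2·α‖` and `C ‖α+α‖^11 < ‖α‖^6 ‖α+2·α‖^5`; here `‖α‖ = |A|`,
`‖α+α‖ = |A+A|` and `‖α+2·α‖ = |A+2·A|`. -/
theorem result (C : ℝ) : ∃ A : Finset ℤ, ∃ α : ℤ → ℝ,
    (∀ i, α i = if i ∈ A then 1 else 0) ∧ (∀ i, 0 ≤ α i ∧ α i ≤ 1) ∧ Summable α ∧
    nrm α = A.card ∧ dnorm 1 α = (sums 1 A).card ∧ dnorm 2 α = (sums 2 A).card ∧
    C * dnorm 1 α ^ 2 < nrm α * dnorm 2 α ∧
    C * dnorm 1 α ^ 11 < nrm α ^ 6 * dnorm 2 α ^ 5 := by
  obtain ⟨A, hA, hB⟩ := Pool.Agent.T6.H59.FD.exists_both C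
  have e1 := sums_map 1 A
  have e2 := sums_map 2 A
  push_cast at e1 e2
  refine ⟨A.map Nat.castEmbedding, ind (A.map Nat.castEmbedding), fun i => rfl, ?_, ?_,
    nrm_ind _, dnorm_ind 1 _, dnorm_ind 2 _, ?_, ?_⟩
  · intro i
    unfold ind
    split_ifs <;> norm_num
  · exact summable_of_ne_finset_zero (s := A.map Nat.castEmbedding)
      (fun i hi => by rw [ind, if_neg hi])
  · rw [nrm_ind, dnorm_ind, dnorm_ind, e1, e2, card_map]
    exact hB
  · rw [nrm_ind, dnorm_ind, dnorm_ind, e1, e2, card_map]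
    exact hA

end Pool.Agent.Results.MP_288d1b_co.LargeDilate
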